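import Pool.Agent.Lib.MP_d55432_al.SIX.Iface

/-!
# SIX: module PHI, equivariance of the map `F4L` under all automorphisms of `sl₄`
-/

namespace Pool.Agent.Lib.MP_d55432_al.SIX.H32

open Matrix LieAlgebra Pool.Agent.Lib.MP_d55432_al.SIX

attribute [local instance 100] LieRing.ofAssociativeRing

section hom

variable {K : Type*} [Field K] {Φ : M4 K →ₗ[K] M4 K} (h1 : Φ 1 = 1)
  (htr : ∀ M, (Φ M).trace = M.trace)

include h1 htr in
theorem F4_hom (hm : ∀ M N, Φ (M * N) = Φ M * Φ N) (a x y b : M4 K) :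
    F4 (Φ a) (Φ x) (Φ y) (Φ b) = Φ (F4 a x y b) := by
  have hadj : ∀ M, adj4 (Φ M) = Φ (adj4 M) := by
    intro M
    simp only [adj4, map_add, map_sub, map_neg, map_smul, h1, ← hm, htr]
  have hsq : ∀ M, sq4 (Φ M) = Φ (sq4 M) := by
    intro M
    simp only [sq4, map_sub, map_smul, h1, ← hm, htr]
  have hlin : ∀ M N, lin4 (Φ M) (Φ N) = Φ (lin4 M N) := by
    intro M N
    simp only [lin4, map_sub, map_smul, h1, ← hm, htr]
  have hw : ∀ M N, w4 (Φ M) (Φ N) = Φ (w4 M N) := by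
    intro M N
    simp only [w4, ← hm, ← map_sub, ← map_add, hadj, hsq, hlin]
  simp only [F4, hw, ← hm, ← map_sub, hsq, htr, map_smul]

include h1 htr in
theorem F4_anti (hm : ∀ M N, Φ (M * N) = Φ N * Φ M) (a x y b : M4 K) :
    F4 (-Φ a) (-Φ x) (-Φ y) (-Φ b) = -Φ (F4 a x y b) := by
  have hadj : ∀ M, adj4 (-Φ M) = -Φ (adj4 M) := by
    intro M
    have e2 : Φ M * Φ M = Φ (M * M) := (hm M M).symm
    have e3 : Φ (M * M) * Φ M = Φ (M * M * M) := by rw [← hm, ← Matrix.mul_assoc]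
    simp only [adj4, neg_mul, mul_neg, neg_neg, e2, e3, trace_neg, htr, map_add, map_sub, map_neg,
      map_smul, h1]
    module
  have hsq : ∀ M, sq4 (Φ M) = Φ (sq4 M) := by
    intro M
    simp only [sq4, map_sub, map_smul, h1, ← hm, htr]
  have hsqn : ∀ M, sq4 (-M) = sq4 (M : M4 K) := by
    intro M
    simp only [sq4, neg_mul_neg]
  have hlin : ∀ M N, lin4 (-Φ M) (-Φ N) = Φ (lin4 M N) := by
    intro M N
    simp only [lin4, neg_mul_neg, ← hm, htr, trace_neg, map_sub, map_smul, h1, neg_smul_neg,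
      trace_mul_comm N M]
  have hw : ∀ M N, w4 (-Φ M) (-Φ N) = Φ (w4 M N) := by
    intro M N
    have e1 : (-Φ M) * (-Φ N) - (-Φ N) * (-Φ M) = -Φ (M * N - N * M) := by
      rw [neg_mul_neg, neg_mul_neg, map_sub, hm, hm, neg_sub]
    rw [w4, e1, hadj, hlin, mul_neg, neg_mul, hsqn, hsqn, ← hm, ← hm, hsq, hsq, ← map_add, hsq,
      w4, add_comm]
  have e1 : Φ (w4 a x) * (-Φ y) - (-Φ y) * Φ (w4 a x) = Φ (w4 a x * y - y * w4 a x) := by
    rw [mul_neg, neg_mul, map_sub, hm, hm]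
    abel
  have e3' : (-Φ b) * (-Φ b) * (-Φ b) = -Φ (b * b * b) := by
    rw [neg_mul_neg, mul_neg, hm, hm, Matrix.mul_assoc]
  rw [F4, hw, e1, hsq, e3', trace_neg, htr, F4, map_smul, neg_smul]

end hom

section ext

variable {K : Type*} [Field K] [CharZero K]

/-- The traceless part of a matrix, as a linear map. -/
def tl : M4 K →ₗ[K] L4 K where
  toFun M := mk4 (M - (M.trace / 4) • (1 : M4 K)) (by
    rw [trace_sub, trace_smul, trace_one, Fintype.card_fin, smul_eq_mul]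
    push_cast
    field_simp
    ring)
  map_add' M N := by
    apply Subtype.ext
    change (M + N) - ((M + N).trace / 4) • (1 : M4 K) =
      (M - (M.trace / 4) • (1 : M4 K)) + (N - (N.trace / 4) • (1 : M4 K))
    rw [trace_add]
    module
  map_smul' c M := by
    apply Subtype.ext
    change c • M - ((c • M).trace / 4) • (1 : M4 K) = c • (M - (M.trace / 4) • (1 : M4 K))
    rw [trace_smul, smul_eq_mul]
    module

theorem tl_coe (M : M4 K) : (tl M).1 = M - (M.trace / 4) • (1 : M4 K) := rfl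

theorem tl_self (X : L4 K) : tl X.1 = X := by
  apply Subtype.ext
  rw [tl_coe, (mem_sl _).1 X.2, zero_div, zero_smul, sub_zero]

/-- The extension of `ε φ` to all matrices. -/
def ex (φ : L4 K ≃ₗ⁅K⁆ L4 K) (ε : K) : M4 K →ₗ[K] M4 K where
  toFun M := (M.trace / 4) • (1 : M4 K) + ε • (φ (tl M)).1
  map_add' M N := by
    rw [map_add, map_add, trace_add]
    change _ + ε • ((φ (tl M)).1 + (φ (tl N)).1) = _
    module
  map_smul' c M := by
    rw [map_smul, map_smul, trace_smul, smul_eq_mul]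
    change _ + ε • (c • (φ (tl M)).1) = c • ((M.trace / 4) • (1 : M4 K) + ε • (φ (tl M)).1)
    module

theorem ex_coe (φ : L4 K ≃ₗ⁅K⁆ L4 K) (ε : K) (M : M4 K) :
    ex φ ε M = (M.trace / 4) • (1 : M4 K) + ε • (φ (tl M)).1 := rfl

theorem ex_sl (φ : L4 K ≃ₗ⁅K⁆ L4 K) (ε : K) (X : L4 K) : ex φ ε X.1 = ε • (φ X).1 := by
  rw [ex_coe, tl_self, (mem_sl _).1 X.2, zero_div, zero_smul, zero_add]

theorem ex_one (φ : L4 K ≃ₗ⁅K⁆ L4 K) (ε : K) : ex φ ε 1 = 1 := by
  have h : tl (1 : M4 K) = 0 := by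
    apply Subtype.ext
    rw [tl_coe, trace_one, Fintype.card_fin]
    change (1 : M4 K) - (((4 : ℕ) : K) / 4) • (1 : M4 K) = 0
    have : ((4 : ℕ) : K) / 4 = 1 := by push_cast; field_simp
    rw [this, one_smul, sub_self]
  rw [ex_coe, h, map_zero, trace_one, Fintype.card_fin]
  change (((4 : ℕ) : K) / 4) • (1 : M4 K) + ε • (0 : M4 K) = 1
  have : ((4 : ℕ) : K) / 4 = 1 := by push_cast; field_simp
  rw [this, one_smul, smul_zero, add_zero]

theorem trace_ex (φ : L4 K ≃ₗ⁅K⁆ L4 K) (ε : K) (M : M4 K) : (ex φ ε M).trace = M.trace := by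
  rw [ex_coe, trace_add, trace_smul, trace_smul, (mem_sl _).1 (φ (tl M)).2, smul_zero, add_zero,
    trace_one, Fintype.card_fin, smul_eq_mul]
  push_cast
  field_simp

variable {φ : L4 K ≃ₗ⁅K⁆ L4 K} {ε : K}

/-- decomposition of a matrix -/
theorem dec (M : M4 K) : M = (M.trace / 4) • (1 : M4 K) + (tl M).1 := by
  rw [tl_coe]; abel

theorem ex_sq (hT : ∀ X Y : L4 K, ((φ X).1 * (φ Y).1).trace = (X.1 * Y.1).trace)
    (hε : ε * ε = 1) (hS : ∀ X : L4 K, sq4L (φ X) = ε • φ (sq4L X)) (X : L4 K) :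
    ex φ ε (X.1 * X.1) = ex φ ε X.1 * ex φ ε X.1 := by
  have e : X.1 * X.1 = ((X.1 * X.1).trace / 4) • (1 : M4 K) + (sq4L X).1 := by
    change _ = _ + sq4 X.1
    rw [sq4]; abel
  have hS' : sq4 (φ X).1 = ε • (φ (sq4L X)).1 := congrArg Subtype.val (hS X)
  rw [e, map_add, map_smul, ex_one, ex_sl, ex_sl, ← hS', smul_mul_smul_comm, hε, one_smul, sq4,
    hT X X]
  abel

theorem ex_sq' (hT : ∀ X Y : L4 K, ((φ X).1 * (φ Y).1).trace = (X.1 * Y.1).trace)
    (hε : ε * ε = 1) (hS : ∀ X : L4 K, sq4L (φ X) = ε • φ (sq4L X)) (M : M4 K) :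
    ex φ ε (M * M) = ex φ ε M * ex φ ε M := by
  have hX := ex_sq hT hε hS (tl M)
  set m := M.trace / 4 with hm
  have hM : M = m • (1 : M4 K) + (tl M).1 := dec M
  have e1 : M * M = (m * m) • (1 : M4 K) + (2 * m) • (tl M).1 + (tl M).1 * (tl M).1 := by
    conv_lhs => rw [hM]
    simp only [add_mul, mul_add, smul_mul_assoc, mul_smul_comm, one_mul, mul_one]
    module
  have e2 : ex φ ε M = m • (1 : M4 K) + ex φ ε (tl M).1 := by
    conv_lhs => rw [hM]
    rw [map_add, map_smul, ex_one]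
  rw [e1, map_add, map_add, map_smul, map_smul, ex_one, hX, e2]
  simp only [add_mul, mul_add, smul_mul_assoc, mul_smul_comm, one_mul, mul_one]
  module

theorem ex_jordan (hT : ∀ X Y : L4 K, ((φ X).1 * (φ Y).1).trace = (X.1 * Y.1).trace)
    (hε : ε * ε = 1) (hS : ∀ X : L4 K, sq4L (φ X) = ε • φ (sq4L X)) (M N : M4 K) :
    ex φ ε (M * N + N * M) = ex φ ε M * ex φ ε N + ex φ ε N * ex φ ε M := by
  have h := ex_sq' hT hε hS (M + N)
  rw [map_add, add_mul, mul_add, mul_add, add_mul, mul_add, mul_add, map_add, map_add, map_add,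
    ex_sq' hT hε hS M, ex_sq' hT hε hS N] at h
  rw [map_add]
  have h' : ex φ ε (M * N) + ex φ ε (N * M) = (ex φ ε M * ex φ ε M + ex φ ε (M * N) +
    (ex φ ε (N * M) + ex φ ε N * ex φ ε N)) - ex φ ε M * ex φ ε M - ex φ ε N * ex φ ε N := by abel
  rw [h', h]
  abel

theorem ex_lie (hε : ε * ε = 1) (M N : M4 K) :
    ex φ ε (M * N - N * M) = ε • (ex φ ε M * ex φ ε N - ex φ ε N * ex φ ε M) := by
  have e2 : ∀ M : M4 K, ex φ ε M = (M.trace / 4) • (1 : M4 K) + ε • (φ (tl M)).1 := fun _ => rfl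
  have e1 : M * N - N * M = (⁅tl M, tl N⁆ : L4 K).1 := by
    change _ = (tl M).1 * (tl N).1 - (tl N).1 * (tl M).1
    rw [tl_coe, tl_coe]
    simp only [sub_mul, mul_sub, smul_mul_assoc, mul_smul_comm, one_mul, mul_one, smul_sub,
      smul_smul]
    rw [mul_comm (N.trace / 4) (M.trace / 4)]
    abel
  have e3 : (φ ⁅tl M, tl N⁆).1 = (φ (tl M)).1 * (φ (tl N)).1 - (φ (tl N)).1 * (φ (tl M)).1 := by
    rw [LieEquiv.map_lie]; rfl
  rw [e1, ex_sl, e3, e2 M, e2 N]
  congr 1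
  conv_lhs => rw [← one_smul K ((φ (tl M)).1 * (φ (tl N)).1 - (φ (tl N)).1 * (φ (tl M)).1), ← hε]
  simp only [add_mul, mul_add, smul_mul_assoc, mul_smul_comm, one_mul, mul_one]
  module

end ext

theorem phi (K : Type*) [Field K] [CharZero K] (hA : AD_S K) : PHI_S K := by
  intro φ a x y b
  obtain ⟨hT, ε, hε, hS⟩ := hA φ
  have hJ := ex_jordan hT hε hS
  have hL := ex_lie (φ := φ) hε
  have h2 : (2 : K) ≠ 0 := two_ne_zero
  have key : ∀ M N : M4 K, (2 : K) • ex φ ε (M * N) =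
      (ex φ ε M * ex φ ε N + ex φ ε N * ex φ ε M) +
        ε • (ex φ ε M * ex φ ε N - ex φ ε N * ex φ ε M) := by
    intro M N
    rw [← hJ, ← hL, ← map_add, ← map_smul]
    congr 1
    rw [two_smul]
    abel
  apply Subtype.ext
  change F4 (φ a).1 (φ x).1 (φ y).1 (φ b).1 = (φ (F4L a x y b)).1
  rcases mul_self_eq_one_iff.1 hε with h | h
  · subst h
    have hm : ∀ M N : M4 K, ex φ (1 : K) (M * N) = ex φ 1 M * ex φ 1 N := by
      intro M N
      apply smul_right_injective _ h2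
      change (2 : K) • _ = (2 : K) • _
      rw [key, one_smul, two_smul]
      abel
    have := F4_hom (ex_one φ 1) (trace_ex φ 1) hm a.1 x.1 y.1 b.1
    have e : F4 a.1 x.1 y.1 b.1 = (F4L a x y b).1 := rfl
    rw [e, ex_sl, ex_sl, ex_sl, ex_sl, ex_sl] at this
    simpa only [one_smul] using this
  · subst h
    have hm : ∀ M N : M4 K, ex φ (-1 : K) (M * N) = ex φ (-1) N * ex φ (-1) M := by
      intro M N
      apply smul_right_injective _ h2
      change (2 : K) • _ = (2 : K) • _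
      rw [key, neg_one_smul, two_smul]
      abel
    have := F4_anti (ex_one φ (-1)) (trace_ex φ (-1)) hm a.1 x.1 y.1 b.1
    have e : F4 a.1 x.1 y.1 b.1 = (F4L a x y b).1 := rfl
    rw [e, ex_sl, ex_sl, ex_sl, ex_sl, ex_sl] at this
    simpa only [neg_one_smul, neg_neg] using this

end Pool.Agent.Lib.MP_d55432_al.SIX.H32
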